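import Pool.Agent.H.MP_57df8f_al.E

set_option autoImplicit false

namespace Pool.Agent.Results.MP_57df8f_al.Td

open Pool.Agent.H.MP_57df8f_al

/-- The action of `G` on `Ω` is `k`-transitive: `Ω` has at least `k` points and `G` is transitive
on `k`-tuples of pairwise distinct points. -/
def KTrans (G Ω : Type) [Group G] [MulAction G Ω] (k : ℕ) : Prop :=
  Nonempty (Fin k ↪ Ω) ∧ ∀ e f : Fin k ↪ Ω, ∃ g : G, ∀ i, g • e i = f i

/-- Transitivity degree: the supremum of all `k ≥ 1` such that `G` has a faithful `k`-transitive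
action. -/
noncomputable def td (G : Type) [Group G] : ℕ∞ :=
  sSup {c : ℕ∞ | ∃ k : ℕ, 1 ≤ k ∧ c = k ∧
    ∃ (Ω : Type) (_ : MulAction G Ω), FaithfulSMul G Ω ∧ KTrans G Ω k}

/-- `G` has a faithful action on an infinite set that is `k`-transitive for every `k ≥ 1`. -/
def HighlyTransitive (G : Type) [Group G] : Prop :=
  ∃ (Ω : Type) (_ : MulAction G Ω), FaithfulSMul G Ω ∧ Infinite Ω ∧ ∀ k, 1 ≤ k → KTrans G Ω k

/-- Every nonzero element is a root of unity, i.e. `F` is algebraic over a finite prime field. -/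
def LocallyFiniteField (F : Type) [Field F] : Prop := ∀ x : F, x ≠ 0 → ∃ n : ℕ, 0 < n ∧ x ^ n = 1

theorem result (F : Type) [Field F] [Countable F] [Infinite F] :
    (LocallyFiniteField F → td (Matrix.ProjGenLinGroup (Fin 2) F) = 3 ∧
      ¬ HighlyTransitive (Matrix.ProjGenLinGroup (Fin 2) F)) ∧
    (¬ LocallyFiniteField F → td (Matrix.ProjGenLinGroup (Fin 2) F) = ⊤ ∧
      HighlyTransitive (Matrix.ProjGenLinGroup (Fin 2) F)) := by
  have iPL : Infinite (PL F) := Infinite.of_injective
    (fun c : F => Projectivization.mk F ![c, 1] (by simp)) fun a b h => by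
      simpa [dt, sub_eq_zero] using (mk_eq _ _).1 h
  have iPG : Infinite (PG F) := Infinite.of_surjective (fun g : PG F => g • std F 0) fun x => by
    obtain ⟨y, a, -⟩ := third x x
    obtain ⟨z, b, c⟩ := third x y
    exact (three0 a b c).imp fun g h => h.1
  simp only [LocallyFiniteField, ← isOfFinOrder_iff_pow_eq_one]
  refine ⟨fun h => ?_, fun h => ?_⟩
  · have key : ∀ (Ω : Type) [MulAction (PG F) Ω] [FaithfulSMul (PG F) Ω] (k : ℕ), KTrans (PG F) Ω k →
        k ≤ 3 := fun Ω _ _ k ⟨⟨e⟩, tr⟩ => by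
      by_contra hk
      have : MulAction.IsMultiplyPretransitive (PG F) Ω k :=
        MulAction.isMultiplyPretransitive_iff.2 fun e f => (tr e f).imp fun g h =>
          Function.Embedding.ext h
      have := MulAction.isMultiplyPretransitive_of_le' (G := PG F) (α := Ω) (m := 4) (n := k)
        (by omega) (by simpa using ENat.card_le_card_of_injective e.injective)
      exact no4 k1 k2 (lfin h) ((Fin.castLEEmb (by omega)).trans e) fun e f =>
        (MulAction.isMultiplyPretransitive_iff.1 this e f).imp fun g h i => by rw [← h]; rfl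
    refine ⟨le_antisymm (sSup_le ?_) (le_sSup ⟨3, by decide, rfl, PL F, inferInstance, ⟨fun {g h} e =>
      ?_⟩, ⟨⟨_, std_inj⟩⟩, fun e f => ?_⟩), fun ⟨Ω, _, _, _, h⟩ => ?_⟩
    · rintro _ ⟨k, -, rfl, Ω, _, _, h⟩
      exact_mod_cast key Ω k h
    · exact inv_mul_eq_one.1 (fix0 fun i => by rw [mul_smul, inv_smul_eq_iff, e])
    · obtain ⟨g, a, b, c⟩ := three (e.injective.ne (by decide : (0 : Fin 3) ≠ 1))
        (e.injective.ne (by decide : (0 : Fin 3) ≠ 2)) (e.injective.ne (by decide))
        (f.injective.ne (by decide : (0 : Fin 3) ≠ 1)) (f.injective.ne (by decide : (0 : Fin 3) ≠ 2))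
        (f.injective.ne (by decide))
      exact ⟨g, fun i => by fin_cases i <;> assumption⟩
    · exact absurd (key Ω 4 (h 4 (by decide))) (by decide)
  · obtain ⟨O, π, a, b, c⟩ := val2 h
    have : Countable (Matrix (Fin 2) (Fin 2) F) := inferInstanceAs (Countable (Fin 2 → Fin 2 → F))
    have : Countable (Matrix.GeneralLinearGroup (Fin 2) F) := Units.val_injective.countable
    have : Countable (PG F) := Matrix.ProjGenLinGroup.mk_surjective.countable
    obtain ⟨Δ, d, e⟩ := ht (sp O.valuation π a b c)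
    have i : Infinite (PG F ⧸ Δ) := not_finite_iff_infinite.1 fun _ =>
      not_finite_iff_infinite.2 iPG (.of_injective _ (MulAction.toPerm_injective (β := PG F ⧸ Δ)))
    have t : ∀ k, KTrans (PG F) (PG F ⧸ Δ) k := fun k =>
      ⟨⟨Fin.valEmbedding.trans (Infinite.natEmbedding _)⟩, e k⟩
    refine ⟨ENat.eq_top_iff_forall_ge.2 fun k => ?_, _, _, d, i, fun k _ => t k⟩
    exact (Nat.cast_le.2 k.le_succ).trans (le_sSup ⟨k + 1, by omega, rfl, _, _, d, t _⟩)

end Pool.Agent.Results.MP_57df8f_al.Td
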